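import Mathlib
import Pool.Graph.R_seed8.Results.MP_b7f1cf_an.FullDistance

/-!
# The closure of the measures nilpotent modulo `L¹(G)` is nowhere dense in `Rad L¹(G)`
-/

set_option autoImplicit false
open scoped ZeroAtInfty BoundedContinuousFunction ComplexOrder Topology
open MeasureTheory Filter Set

namespace Pool.Agent.Results.MP_b7f1cf_an.NowhereDense
open Pool.Agent.Helper550
open Pool.Agent.Results.MP_b7f1cf_an.FullDistance

universe u

theorem nd {E : Type u} [NormedAddCommGroup E] [NormedSpace ℂ E] (R : Set E) (N X : Submodule ℂ E)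
    (hR : ∀ μ ∈ R, ∀ x ∈ X, μ + x ∈ R)
    (hN : IsClosed (N : Set E)) (hd : ∀ μ ∈ X, ∀ ν ∈ N, ‖μ‖ ≤ ‖μ - ν‖) (hX : ¬ X.FG) :
    IsNowhereDense {μ : R | (μ : E) ∈ N} := by
  have hx : ∃ x ∈ X, x ≠ 0 := by
    by_contra hc
    push Not at hc
    apply hX
    have : X = ⊥ := (Submodule.eq_bot_iff _).2 hc
    rw [this]; exact Submodule.fg_bot
  obtain ⟨x, hxX, hx0⟩ := hx
  have hcl : IsClosed {μ : R | (μ : E) ∈ N} := hN.preimage continuous_subtype_val
  rw [hcl.isNowhereDense_iff, ← not_nonempty_iff_eq_empty]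
  rintro ⟨μ, hμ⟩
  rw [mem_interior_iff_mem_nhds, Metric.mem_nhds_iff] at hμ
  obtain ⟨ε, hε, hsub⟩ := hμ
  have hμN : (μ : E) ∈ N := hsub (Metric.mem_ball_self hε)
  have hxn : 0 < ‖x‖ := norm_pos_iff.2 hx0
  set t : ℂ := ((ε / (2 * ‖x‖) : ℝ) : ℂ) with ht
  have htx : t • x ∈ X := X.smul_mem t hxX
  have htn : ‖t • x‖ = ε / 2 := by
    rw [norm_smul, ht, Complex.norm_real, Real.norm_of_nonneg (by positivity)]
    field_simp
  have h1 : (⟨(μ : E) + t • x, hR _ μ.2 _ htx⟩ : R) ∈ Metric.ball μ ε := by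
    rw [Metric.mem_ball, Subtype.dist_eq, dist_eq_norm]
    simp only [add_sub_cancel_left]
    rw [htn]; linarith
  have h2 : (μ : E) + t • x ∈ N := hsub h1
  have h3 : t • x ∈ N := by simpa using N.sub_mem h2 hμN
  have h4 := hd _ htx _ h3
  rw [sub_self, norm_zero, htn] at h4
  linarith

theorem subsing {E : Type u} [NormedAddCommGroup E] [NormedSpace ℂ E] (N X : Submodule ℂ E)
    (hd : ∀ μ ∈ X, ∀ ν ∈ N, ‖μ‖ ≤ ‖μ - ν‖) (ρ : E) : {μ | μ ∈ X ∧ ρ + μ ∈ N}.Subsingleton := by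
  rintro a ⟨ha, ha2⟩ b ⟨hb, hb2⟩
  have h1 : a - b ∈ N := by
    have := N.sub_mem ha2 hb2
    simpa using this
  have h2 := hd _ (X.sub_mem ha hb) _ h1
  rw [sub_self, norm_zero] at h2
  exact sub_eq_zero.1 (norm_le_zero_iff.1 h2)

section bridge
variable {G : Type u} [AddCommGroup G] [TopologicalSpace G] [IsTopologicalAddGroup G]
    [T2Space G] [LocallyCompactSpace G] [MeasurableSpace G] [BorelSpace G]

/-- the closure of the ideal of the measures with a power in the ideal of absolutely continuous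
measures -/
noncomputable def NN (G : Type u) [AddCommGroup G] [TopologicalSpace G] [IsTopologicalAddGroup G]
    [T2Space G] [LocallyCompactSpace G] [MeasurableSpace G] [BorelSpace G] :
    Submodule ℂ (Rad.Meas G) :=
  (Submodule.restrictScalars ℂ (Rad.L1i G).radical).topologicalClosure

theorem aux (hnd : NeBot (𝓝[≠] (0 : G))) : ∃ (N X : Submodule ℂ (Rad.Meas G)),
    IsClosed (N : Set (Rad.Meas G)) ∧ (∀ ν : Rad.Meas G, ν ∈ NilL1 G → ν ∈ N) ∧
    (∀ ν : Rad.Meas G, ν ∈ N → ν ∈ RadL1 G) ∧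
    (∀ α ν : Rad.Meas G, ν ∈ N → (convolve α ν : Rad.Meas G) ∈ N) ∧
    IsClosed (X : Set (Rad.Meas G)) ∧ ¬ X.FG ∧ (∀ μ : Rad.Meas G, μ ∈ X → μ ∈ RadL1 G) ∧
    (∀ μ : Rad.Meas G, μ ∈ X → ∀ ν : Rad.Meas G, ν ∈ N → ‖μ‖ ≤ ‖μ - ν‖) := by
  obtain ⟨μ₀, hpos, _, _, hfd, hhom, hdist⟩ := Pool.Agent.Y590.RadN.full (G := G)
  refine ⟨NN G, Pool.Agent.Y590.RadN.XX μ₀, Submodule.isClosed_topologicalClosure _, ?_, ?_, ?_, ?_,
    fun h => hfd (Module.Finite.iff_fg.2 h), ?_, ?_⟩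
  · rintro ν ⟨n, hν⟩
    have hν2 : (cpow ν n : Rad.Meas G) ∈ L1 G := hν
    rw [cpow_eq] at hν2
    apply Submodule.le_topologicalClosure
    exact ⟨n + 1, L1_sub hν2⟩
  · intro ν hν
    refine rad_of fun φ hφ => ?_
    have hc : Continuous φ := (AlgHom.toContinuousLinearMap φ).continuous
    have hcl : IsClosed {ν : Rad.Meas G | φ ν = 0} := isClosed_eq hc continuous_const
    have hν2 : ν ∈ closure ((Submodule.restrictScalars ℂ (Rad.L1i G).radical : Submodule ℂ (Rad.Meas G)) :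
        Set (Rad.Meas G)) := by
      rw [← Submodule.topologicalClosure_coe]; exact hν
    refine closure_minimal ?_ hcl hν2
    rintro ξ ⟨n, hξ⟩
    have h1 : φ (ξ ^ n) = 0 := hφ _ (Rad.mem_L1i.1 hξ)
    rw [map_pow] at h1
    by_contra hne
    exact pow_ne_zero n hne h1
  · intro α ν hν
    have e : (convolve α ν : Rad.Meas G) = α * ν := rfl
    rw [e]
    have hν2 : ν ∈ closure ((Submodule.restrictScalars ℂ (Rad.L1i G).radical : Submodule ℂ (Rad.Meas G)) :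
        Set (Rad.Meas G)) := by
      rw [← Submodule.topologicalClosure_coe]; exact hν
    have h1 : α * ν ∈ closure ((Submodule.restrictScalars ℂ (Rad.L1i G).radical : Submodule ℂ (Rad.Meas G)) :
        Set (Rad.Meas G)) :=
      map_mem_closure (f := fun x : Rad.Meas G => α * x) (continuous_const.mul continuous_id) hν2
        (fun x hx => Ideal.mul_mem_left _ α hx)
    rw [← Submodule.topologicalClosure_coe] at h1
    exact h1
  · rw [Pool.Agent.Y590.RadN.XX]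
    exact Submodule.isClosed_topologicalClosure _
  · intro μ hμ
    exact rad_of fun φ hφ => hhom φ hφ μ hμ
  · intro μ hμ ν hν
    have hν2 : ν ∈ closure ((Submodule.restrictScalars ℂ (Rad.L1i G).radical : Submodule ℂ (Rad.Meas G)) :
        Set (Rad.Meas G)) := by
      rw [← Submodule.topologicalClosure_coe]; exact hν
    have hcl : IsClosed {ν : Rad.Meas G | ‖μ‖ ≤ ‖μ - ν‖} :=
      isClosed_le continuous_const (continuous_const.sub continuous_id).norm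
    refine closure_minimal ?_ hcl hν2
    rintro ξ ⟨n, hξ⟩
    have h2 : ξ ^ (n + 1) ∈ Rad.L1i G := by
      rw [pow_succ]; exact Ideal.mul_mem_right _ _ hξ
    exact hdist μ hμ ξ (n + 1) (Nat.succ_le_succ (Nat.zero_le n)) (Rad.mem_L1i.1 h2)

/-- `Rad L¹(G)` is closed under addition -/
theorem rad_add (μ x : StrongDual ℂ C₀(G, ℂ)) (hμ : μ ∈ RadL1 G) (hx : x ∈ RadL1 G) :
    μ + x ∈ RadL1 G := by
  intro φ h1 h2 h3
  rw [map_add, hμ φ h1 h2 h3, hx φ h1 h2 h3, add_zero]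

end bridge

/-- For every non-discrete locally compact abelian group `G` there are a closed ideal `N` of `M(G)`,
contained in `Rad L¹(G)` and containing all measures nilpotent modulo `L¹(G)`, and an
infinite-dimensional closed subspace `X` of `Rad L¹(G)` such that (1) the distance of every `μ` in `X`
from `N` is the full norm of `μ`; so `X` embeds isometrically in `Rad L¹(G) / N`; (2) `N` is nowhere
dense in `Rad L¹(G)`; (3) every translate of `X` meets `N` in at most one point.  In particular the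
closure of the measures nilpotent modulo `L¹(G)` is nowhere dense in `Rad L¹(G)`, and a generic
element of `Rad L¹(G)` is no limit of such measures. -/
theorem result (G : Type u) [AddCommGroup G] [TopologicalSpace G] [IsTopologicalAddGroup G] [T2Space G]
    [LocallyCompactSpace G] [MeasurableSpace G] [BorelSpace G] (h : ¬ DiscreteTopology G) :
    (∃ N X : Submodule ℂ (StrongDual ℂ C₀(G, ℂ)),
      IsClosed (N : Set (StrongDual ℂ C₀(G, ℂ))) ∧ NilL1 G ⊆ N ∧ (N : Set (StrongDual ℂ C₀(G, ℂ))) ⊆ RadL1 G ∧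
      (∀ α, ∀ ν ∈ N, convolve α ν ∈ N) ∧
      IsClosed (X : Set (StrongDual ℂ C₀(G, ℂ))) ∧ (X : Set (StrongDual ℂ C₀(G, ℂ))) ⊆ RadL1 G ∧ ¬ X.FG ∧
      (∀ μ ∈ X, ∀ ν ∈ N, ‖μ‖ ≤ ‖μ - ν‖) ∧
      IsNowhereDense {μ : RadL1 G | (μ : StrongDual ℂ C₀(G, ℂ)) ∈ N} ∧
      ∀ ρ, {μ | μ ∈ X ∧ ρ + μ ∈ N}.Subsingleton) ∧
    IsNowhereDense {μ : RadL1 G | (μ : StrongDual ℂ C₀(G, ℂ)) ∈ closure (NilL1 G)} ∧
    {μ : RadL1 G | (μ : StrongDual ℂ C₀(G, ℂ)) ∉ closure (NilL1 G)} ∈ residual (RadL1 G) := by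
  have hnd : NeBot (𝓝[≠] (0 : G)) := by
    rw [neBot_iff]
    intro hb
    apply h
    apply discreteTopology_of_isOpen_singleton_zero
    rw [isOpen_singleton_iff_punctured_nhds]
    exact hb
  have key : ∃ N X : Submodule ℂ (StrongDual ℂ C₀(G, ℂ)),
      IsClosed (N : Set (StrongDual ℂ C₀(G, ℂ))) ∧ (∀ ν, ν ∈ NilL1 G → ν ∈ N) ∧
      (∀ ν, ν ∈ N → ν ∈ RadL1 G) ∧ (∀ α ν, ν ∈ N → convolve α ν ∈ N) ∧
      IsClosed (X : Set (StrongDual ℂ C₀(G, ℂ))) ∧ ¬ X.FG ∧ (∀ μ, μ ∈ X → μ ∈ RadL1 G) ∧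
      (∀ μ, μ ∈ X → ∀ ν, ν ∈ N → ‖μ‖ ≤ ‖μ - ν‖) := aux hnd
  obtain ⟨N, X, h1, h2, h3, h4, h5, h6, h7, h8⟩ := key
  have h9 : IsNowhereDense {μ : RadL1 G | (μ : StrongDual ℂ C₀(G, ℂ)) ∈ N} :=
    nd (RadL1 G) N X (fun μ hμ x hx => rad_add μ x hμ (h7 x hx)) h1 h8 h6
  have h10 : closure (NilL1 G) ⊆ (N : Set (StrongDual ℂ C₀(G, ℂ))) := closure_minimal h2 h1
  have h11 : IsNowhereDense {μ : RadL1 G | (μ : StrongDual ℂ C₀(G, ℂ)) ∈ closure (NilL1 G)} :=
    h9.mono fun μ hμ => h10 hμ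
  refine ⟨⟨N, X, h1, h2, h3, h4, h5, h7, h6, h8, h9, fun ρ => subsing N X h8 ρ⟩, h11, ?_⟩
  exact h11.isMeagre

end Pool.Agent.Results.MP_b7f1cf_an.NowhereDense
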